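import Pool.Agent.R852.LK.Fin
import Pool.Agent.R852.BC.Main

/-!
# Few squarefree kernels

Integers of polynomial size in `y` which are squares modulo almost all primes `≤ y`, where the
exceptional primes divide an integer of polynomial size (which may depend on the integer), have at
most `y ^ ε` squarefree kernels, and these are at least `y ^ (4 √e - ε)` in absolute value.
-/

set_option autoImplicit false

open Finset Filter Topology

namespace Pool.Agent.Run7.h445.QS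

open Pool.Agent.R852.LK

/-- `f` is the kernel of an integer `E` of polynomial size, a square modulo almost all small primes,
and `f` is not a square -/
def Adm (k y : ℕ) (A : ℝ) (f : ℤ) : Prop :=
  Squarefree f ∧ ¬ IsSquare f ∧ ∃ E B : ℤ, E ≠ 0 ∧ IsSquare (f * E) ∧ |(E : ℝ)| ≤ (y : ℝ) ^ A ∧
    B ≠ 0 ∧ |(B : ℝ)| ≤ (y : ℝ) ^ A ∧
    ∀ p : ℕ, p.Prime → k < p → p ≤ y → ¬ (p : ℤ) ∣ B → ∃ t : ℤ, (p : ℤ) ∣ E - t ^ 2

lemma ker_form (f E : ℤ) (hf : Squarefree f) (hE : E ≠ 0) (h : IsSquare (f * E)) :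
    ∃ s : ℤ, s ≠ 0 ∧ E = f * s ^ 2 := by
  obtain ⟨t, ht⟩ := h
  have h1 : f ∣ t ^ 2 := ⟨E, by rw [sq, ← ht]⟩
  obtain ⟨u, rfl⟩ := (hf.dvd_pow_iff_dvd two_ne_zero).mp h1
  have hf0 : f ≠ 0 := hf.ne_zero
  have h3 : E = f * u ^ 2 := by
    apply mul_left_cancel₀ hf0
    rw [ht]; ring
  refine ⟨u, ?_, h3⟩
  rintro rfl
  apply hE
  rw [h3]; ring

lemma sq_cancel (a v : ℤ) (hv : v ≠ 0) (h : IsSquare (a * v ^ 2)) : IsSquare a := by
  obtain ⟨t, ht⟩ := h
  have hdvd : v ^ 2 ∣ t ^ 2 := ⟨a, by rw [sq t, ← ht]; ring⟩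
  obtain ⟨u, hu⟩ := (Int.pow_dvd_pow_iff two_ne_zero).mp hdvd
  refine ⟨u, ?_⟩
  apply mul_right_cancel₀ (pow_ne_zero 2 hv)
  rw [ht, hu]; ring

theorem kern (k : ℕ) (A ε : ℝ) (hA : 0 ≤ A) (hε : 0 < ε) : ∀ᶠ y : ℕ in atTop, ∃ F : Finset ℤ,
    (F.card : ℝ) ≤ (y : ℝ) ^ ε ∧
    (∀ f ∈ F, Squarefree f ∧ (y : ℝ) ^ (4 * Real.exp (1 / 2) - ε) ≤ |(f : ℝ)|) ∧
    ∀ f, Adm k y A f → f ∈ F := by
  classical
  filter_upwards [core (3 * A + 1) ε (by linarith) hε, Pool.Agent.R852.BC.main2 k (2 * A) ε hε,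
    eventually_ge_atTop (k.factorial ^ 2), eventually_ge_atTop 1] with y hcore hmain hyk hy1
  have hy0 : (0 : ℝ) < y := by exact_mod_cast hy1
  have hyone : (1 : ℝ) ≤ y := by exact_mod_cast hy1
  have hyA0 : 0 ≤ (y : ℝ) ^ A := by positivity
  set M : ℤ := ⌊(y : ℝ) ^ A⌋ with hM
  refine ⟨(Icc (-M) M).filter (Adm k y A), ?_, ?_, ?_⟩
  · -- the number
    have hch : ∀ f ∈ (Icc (-M) M).filter (Adm k y A), ∃ D : ℤ,
        (D ≠ 0 ∧ |(D : ℝ)| ≤ (y : ℝ) ^ (3 * A + 1)) ∧ (∃ u : ℤ, u ≠ 0 ∧ D = f * u ^ 2) ∧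
        (∀ p ∈ PR y, ¬ (p : ℤ) ∣ D → ps D p = 1) := by
      intro f hf
      obtain ⟨hsf, hns, E, B, hE0, hfE, hEA, hB0, hBA, hloc⟩ := (mem_filter.1 hf).2
      obtain ⟨s, hs0, hs⟩ := ker_form f E hsf hE0 hfE
      have hk0 : ((k.factorial : ℕ) : ℤ) ≠ 0 := by exact_mod_cast Nat.factorial_ne_zero k
      have hkB : ((k.factorial : ℕ) : ℤ) * B ≠ 0 := mul_ne_zero hk0 hB0
      refine ⟨E * (k.factorial * B) ^ 2, ⟨mul_ne_zero hE0 (pow_ne_zero 2 hkB), ?_⟩,
        ⟨s * (k.factorial * B), mul_ne_zero hs0 hkB, ?_⟩, ?_⟩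
      · push_cast
        rw [abs_mul, abs_pow, abs_mul, Nat.abs_cast, mul_pow]
        have h1 : ((k.factorial : ℕ) : ℝ) ^ 2 ≤ y := by exact_mod_cast hyk
        have h2 : (y : ℝ) ^ (3 * A + 1) = (y : ℝ) ^ A * ((y : ℝ) * ((y : ℝ) ^ A) ^ 2) := by
          rw [← Real.rpow_natCast ((y : ℝ) ^ A), ← Real.rpow_mul hy0.le]
          conv_rhs => rw [← Real.rpow_one_add' hy0.le (by push_cast; linarith)]
          rw [← Real.rpow_add hy0]
          congr 1
          push_cast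
          ring
        rw [h2]
        gcongr
      · rw [hs]; ring
      · intro p hp hpD
        obtain ⟨hp1, hp2, hp3⟩ := mem_PR.mp hp
        apply ps_one_of _ p hp2 hp3 hpD
        have hk : k < p := by
          by_contra h
          apply hpD
          have h1 : (p : ℤ) ∣ ((k.factorial : ℕ) : ℤ) := by
            exact_mod_cast hp2.dvd_factorial.2 (by omega)
          exact Dvd.dvd.mul_left (dvd_pow (h1.mul_right B) two_ne_zero) E
        have hB : ¬ (p : ℤ) ∣ B := by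
          intro h
          apply hpD
          exact Dvd.dvd.mul_left (dvd_pow (h.mul_left _) two_ne_zero) E
        obtain ⟨t, ht⟩ := hloc p hp2 hk hp1.le hB
        refine ⟨t * (k.factorial * B), ?_⟩
        have e : E * (k.factorial * B) ^ 2 - (t * (k.factorial * B)) ^ 2 =
            (E - t ^ 2) * (k.factorial * B) ^ 2 := by ring
        rw [e]
        exact ht.mul_right _
    choose! δ h1 h2 h3 using hch
    have hfg : ∀ f ∈ (Icc (-M) M).filter (Adm k y A), ∀ g ∈ (Icc (-M) M).filter (Adm k y A),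
        IsSquare (δ f * δ g) → f = g := by
      intro f hf g hg h
      obtain ⟨u, hu, hu'⟩ := h2 f hf
      obtain ⟨v, hv, hv'⟩ := h2 g hg
      apply sq_prod f g (mem_filter.1 hf).2.1 (mem_filter.1 hg).2.1
      apply sq_cancel _ (u * v) (mul_ne_zero hu hv)
      rw [hu', hv'] at h
      convert h using 1
      ring
    have hinj : Set.InjOn δ (((Icc (-M) M).filter (Adm k y A) : Finset ℤ) : Set ℤ) := by
      intro f hf g hg h
      apply hfg f hf g hg
      rw [h]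
      exact ⟨δ g, rfl⟩
    rw [← card_image_of_injOn hinj]
    apply hcore
    · intro D hD
      obtain ⟨f, hf, rfl⟩ := Finset.mem_image.mp hD
      exact h1 f hf
    · intro D hD D' hD' hne hsq
      obtain ⟨f, hf, rfl⟩ := Finset.mem_image.mp hD
      obtain ⟨g, hg, rfl⟩ := Finset.mem_image.mp hD'
      apply hne
      rw [hfg f hf g hg hsq]
    · intro D hD p hp hpD
      obtain ⟨f, hf, rfl⟩ := Finset.mem_image.mp hD
      exact h3 f hf p hp hpD
  · -- the size
    intro f hf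
    obtain ⟨hsf, hns, E, B, hE0, hfE, hEA, hB0, hBA, hloc⟩ := (mem_filter.1 hf).2
    refine ⟨hsf, ?_⟩
    by_contra hcon
    push Not at hcon
    obtain ⟨s, hs0, hs⟩ := ker_form f E hsf hE0 hfE
    apply hns
    refine hmain f (B * s) (mul_ne_zero hB0 hs0) ?_ ?_ ?_
    · push_cast
      rw [abs_mul]
      have h1 : |(s : ℝ)| ≤ (y : ℝ) ^ A := by
        refine le_trans ?_ hEA
        have h2 : |s| ≤ |E| := by
          rw [hs, abs_mul, abs_pow]
          have h3 : 1 ≤ |f| := Int.one_le_abs hsf.ne_zero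
          have h4 : 1 ≤ |s| := Int.one_le_abs hs0
          nlinarith [mul_le_mul h3 h4 (by norm_num) (abs_nonneg f)]
        exact_mod_cast h2
      have h2 : (y : ℝ) ^ (2 * A) = (y : ℝ) ^ A * (y : ℝ) ^ A := by
        rw [← Real.rpow_add hy0]
        congr 1
        ring
      rw [h2]
      gcongr
    · exact hcon.le
    · intro p hp hkp hpy hpB
      have hpB' : ¬ (p : ℤ) ∣ B := fun h => hpB (h.mul_right s)
      have hps : ¬ (p : ℤ) ∣ s := fun h => hpB (h.mul_left B)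
      obtain ⟨t, ht⟩ := hloc p hp hkp hpy hpB'
      have hcop : IsCoprime (p : ℤ) s :=
        (Int.isCoprime_iff_gcd_eq_one.2 (by
          rw [Int.gcd_comm]
          have := (Nat.Prime.coprime_iff_not_dvd hp).2 (fun h => hps (Int.natCast_dvd.2 h))
          rw [Int.gcd_comm]
          simpa [Int.gcd] using this))
      obtain ⟨a, b, hab⟩ := hcop
      refine ⟨t * b, ?_⟩
      -- `a p + b s = 1`
      have e : f - (t * b) ^ 2 = (E - t ^ 2) * b ^ 2 + (p : ℤ) * (f * a * (1 + b * s)) := by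
        have h5 : 1 - (b * s) ^ 2 = (a * p) * (1 + b * s) := by
          have h6 : a * (p : ℤ) = 1 - b * s := by linarith
          rw [h6]; ring
        rw [hs]
        linear_combination f * h5
      rw [e]
      exact dvd_add (ht.mul_right _) (dvd_mul_right _ _)
  · intro f hf
    rw [mem_filter, mem_Icc]
    refine ⟨?_, hf⟩
    obtain ⟨hsf, hns, E, B, hE0, hfE, hEA, hB0, hBA, hloc⟩ := hf
    obtain ⟨s, hs0, hs⟩ := ker_form f E hsf hE0 hfE
    rw [← abs_le, hM, Int.le_floor]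
    refine le_trans ?_ hEA
    have h2 : |f| ≤ |E| := by
      rw [hs, abs_mul, abs_pow]
      have h3 : 0 ≤ |f| := abs_nonneg f
      have h4 : 1 ≤ |s| := Int.one_le_abs hs0
      nlinarith [mul_nonneg h3 (by nlinarith : 0 ≤ |s| ^ 2 - 1)]
    exact_mod_cast h2

end Pool.Agent.Run7.h445.QS
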