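import Mathlib

/-!
# Square roots of integers in splitting fields

Let `P` be a monic integral polynomial, `K` its splitting field over `ℚ` and `x ∈ K`, `x ² = D ∈ ℤ`.
There is an integer `E ≠ 0`, `D E` a square, bounded in terms of the degree and the size of the roots
of `P`, which is a square modulo all primes `p` such that `P` splits modulo `p`.
-/

set_option autoImplicit false

open Polynomial
open scoped Pointwise

namespace Pool.Agent.Run7.h445.QS

/-- powers of a subspace which generates the algebra -/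
theorem pow_top {F K : Type*} [Field F] [Field K] [Algebra F K] [FiniteDimensional F K]
    (W : Submodule F K) (h1 : (1 : K) ∈ W) (hadj : Algebra.adjoin F (W : Set K) = ⊤) (n : ℕ)
    (hn : Module.finrank F K ≤ n) : W ^ n = ⊤ := by
  have hmono : ∀ j, W ^ j ≤ W ^ (j + 1) := by
    intro j z hz
    rw [pow_succ]
    have := Submodule.mul_mem_mul hz h1
    rwa [mul_one] at this
  have h1j : ∀ j, (1 : K) ∈ W ^ j := by
    intro j
    induction j with
    | zero => rw [pow_zero]; exact Submodule.one_le.1 le_rfl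
    | succ j ih => exact hmono j ih
  have hclos : ∀ j, W ^ (j + 1) = W ^ j → W ^ j = ⊤ := by
    intro j hj
    have key : ∀ a ∈ Algebra.adjoin F (W : Set K), ∀ z ∈ W ^ j, a * z ∈ W ^ j := by
      intro a ha
      induction ha using Algebra.adjoin_induction with
      | mem a ha =>
        intro z hz
        rw [← hj, pow_succ']
        exact Submodule.mul_mem_mul ha hz
      | algebraMap c =>
        intro z hz
        rw [← Algebra.smul_def]
        exact Submodule.smul_mem _ _ hz
      | add a b _ _ iha ihb =>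
        intro z hz
        rw [add_mul]
        exact Submodule.add_mem _ (iha z hz) (ihb z hz)
      | mul a b _ _ iha ihb =>
        intro z hz
        rw [mul_assoc]
        exact iha _ (ihb z hz)
    rw [eq_top_iff]
    intro a _
    have := key a (by rw [hadj]; trivial) 1 (h1j j)
    rwa [mul_one] at this
  have hfin : ∀ j, W ^ j = ⊤ ∨ j + 1 ≤ Module.finrank F (W ^ j : Submodule F K) := by
    intro j
    induction j with
    | zero =>
      right
      rw [pow_zero, Submodule.one_eq_span, finrank_span_singleton one_ne_zero]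
    | succ j ih =>
      rcases ih with h | h
      · left
        exact eq_top_iff.2 (h ▸ hmono j)
      · by_cases he : W ^ (j + 1) = W ^ j
        · left
          rw [he]
          exact hclos j he
        · right
          have h2 : W ^ j < W ^ (j + 1) := lt_of_le_of_ne (hmono j) (Ne.symm he)
          have := Submodule.finrank_lt_finrank_of_lt h2
          omega
  rcases hfin n with h | h
  · exact h
  · have := Submodule.finrank_le (W ^ n)
    omega

theorem pow_ind {M : Type*} [Monoid M] (U : Set M) (q : ℕ → M → Prop) (h0 : q 0 1)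
    (hs : ∀ n m u, q n m → u ∈ U → q (n + 1) (m * u)) : ∀ n, ∀ m ∈ U ^ n, q n m := by
  intro n
  induction n with
  | zero =>
    intro m hm
    rw [pow_zero, Set.mem_one] at hm
    subst hm
    exact h0
  | succ n ih =>
    intro m hm
    rw [pow_succ, Set.mem_mul] at hm
    obtain ⟨a, ha, b, hb, rfl⟩ := hm
    exact hs n a b (ih a ha) hb

theorem field_abs {K : Type*} [Field K] [CharZero K] [FiniteDimensional ℚ K] [IsGalois ℚ K]
    (P : ℤ[X]) (hP : P.Monic) (S : Set K) (hS : ∀ z, z ∈ S ↔ aeval z P = 0)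
    (hadj : Algebra.adjoin ℚ S = ⊤) (φ : K →+* ℂ) (R : ℝ) (hR1 : 1 ≤ R)
    (hR : ∀ z ∈ S, ‖φ z‖ ≤ R) (x : K) (D : ℤ) (hx : x ^ 2 = D) (hD : D ≠ 0) (g : ℕ)
    (hg : Module.finrank ℚ K ≤ g) :
    ∃ E : ℤ, E ≠ 0 ∧ IsSquare (D * E) ∧ |(E : ℝ)| ≤ (g * R ^ g) ^ 2 ∧
      ∃ y ∈ Algebra.adjoin ℤ S, y ^ 2 = (E : K) := by
  classical
  set U : Set K := insert 1 S with hU
  set W : Submodule ℚ K := Submodule.span ℚ U with hW
  have hWtop : W ^ g = ⊤ := by
    refine pow_top W (Submodule.subset_span (Set.mem_insert _ _)) ?_ g hg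
    rw [eq_top_iff, ← hadj]
    exact Algebra.adjoin_mono ((Set.subset_insert _ _).trans Submodule.subset_span)
  rw [hW, Submodule.span_pow] at hWtop
  have hx0 : x ≠ 0 := by
    rintro rfl
    apply hD
    have : (D : K) = 0 := by rw [← hx]; ring
    exact_mod_cast this
  have hDK : (D : K) ≠ 0 := by exact_mod_cast hD
  -- a monomial with nonzero trace
  obtain ⟨m, hm, hτ⟩ : ∃ m ∈ U ^ g, Algebra.trace ℚ K (x * m) ≠ 0 := by
    by_contra hcon
    push Not at hcon
    have h1 : ∀ z : K, Algebra.trace ℚ K (x * z) = 0 := by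
      intro z
      have hz : z ∈ Submodule.span ℚ (U ^ g) := by rw [hWtop]; trivial
      induction hz using Submodule.span_induction with
      | mem z hz => exact hcon z hz
      | zero => rw [mul_zero, map_zero]
      | add a b _ _ ha hb => rw [mul_add, map_add, ha, hb, add_zero]
      | smul c a _ ha => rw [mul_smul_comm, map_smul, ha, smul_zero]
    have h2 := h1 x⁻¹
    rw [mul_inv_cancel₀ hx0, ← map_one (algebraMap ℚ K), Algebra.trace_algebraMap] at h2
    have h3 : Module.finrank ℚ K ≠ 0 := Module.finrank_pos.ne'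
    apply h3
    simpa using h2
  set τ : ℚ := Algebra.trace ℚ K (x * m) with hτdef
  have htr := trace_eq_sum_automorphisms (K := ℚ) (L := K) (x * m)
  have hsgn : ∀ σ : Gal(K/ℚ), σ x = x ∨ σ x = -x := by
    intro σ
    apply sq_eq_sq_iff_eq_or_eq_neg.1
    rw [← map_pow, hx, map_intCast]
  have hsgn' : ∀ σ : Gal(K/ℚ), ∃ s : ℤ, |s| = 1 ∧ σ x = (s : K) * x := by
    intro σ
    rcases hsgn σ with h | h
    · exact ⟨1, by simp, by rw [h]; simp⟩
    · exact ⟨-1, by simp, by rw [h]; simp⟩
  choose s hs1 hs2 using hsgn'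
  set y : K := ∑ σ : Gal(K/ℚ), (s σ : K) * σ m with hy
  have hxy : x * y = algebraMap ℚ K τ := by
    rw [hτdef, htr, hy, Finset.mul_sum]
    refine Finset.sum_congr rfl fun σ _ => ?_
    rw [map_mul, hs2]
    ring
  have hSσ : ∀ σ : Gal(K/ℚ), ∀ z ∈ U, σ z ∈ U := by
    intro σ z hz
    rcases Set.mem_insert_iff.1 hz with h | h
    · rw [h, map_one]
      exact Set.mem_insert _ _
    · apply Set.mem_insert_of_mem
      rw [hS] at h ⊢
      have e : aeval (σ z) P = σ (aeval z P) := by
        rw [← Polynomial.aeval_map_algebraMap ℚ, ← Polynomial.aeval_map_algebraMap ℚ z P]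
        exact Polynomial.aeval_algHom_apply (σ : K →ₐ[ℚ] K) z _
      rw [e, h, map_zero]
  have hUσ : ∀ σ : Gal(K/ℚ), ∀ n, ∀ z ∈ U ^ n, σ z ∈ U ^ n := by
    intro σ
    apply pow_ind U (fun n z => σ z ∈ U ^ n)
    · rw [map_one, pow_zero]
      exact Set.mem_one.2 rfl
    · intro n a u ha hu
      rw [map_mul, pow_succ]
      exact Set.mul_mem_mul ha (hSσ σ u hu)
  have hUadj : ∀ n, ∀ z ∈ U ^ n, z ∈ Algebra.adjoin ℤ S := by
    apply pow_ind U (fun n z => z ∈ Algebra.adjoin ℤ S)
    · exact one_mem _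
    · intro n a u ha hu
      refine mul_mem ha ?_
      rcases Set.mem_insert_iff.1 hu with h | h
      · rw [h]
        exact one_mem _
      · exact Algebra.subset_adjoin h
  have hUR : ∀ n, ∀ z ∈ U ^ n, ‖φ z‖ ≤ R ^ n := by
    apply pow_ind U (fun n z => ‖φ z‖ ≤ R ^ n)
    · simp
    · intro n a u ha hu
      rw [map_mul, norm_mul, pow_succ]
      refine mul_le_mul ha ?_ (norm_nonneg _) (by positivity)
      rcases Set.mem_insert_iff.1 hu with h | h
      · rw [h]
        simpa using hR1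
      · exact hR u h
  have hyadj : y ∈ Algebra.adjoin ℤ S := by
    rw [hy]
    refine sum_mem fun σ _ => mul_mem ?_ (hUadj g _ (hUσ σ g m hm))
    exact intCast_mem _ _
  have hyint : IsIntegral ℤ y := by
    have h1 : ∀ z ∈ S, IsIntegral ℤ z := fun z hz => ⟨P, hP, by
      have := (hS z).1 hz
      rwa [aeval_def] at this⟩
    have h2 := Algebra.IsIntegral.adjoin (R := ℤ) h1
    have h3 := h2.isIntegral (⟨y, hyadj⟩ : Algebra.adjoin ℤ S)
    exact h3.map (Algebra.adjoin ℤ S).val
  have hy2 : y ^ 2 = algebraMap ℚ K (τ ^ 2 / D) := by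
    have h1 : (D : K) * y ^ 2 = algebraMap ℚ K (τ ^ 2) := by
      rw [← hx, map_pow, ← hxy]
      ring
    rw [map_div₀, ← h1, map_intCast]
    field_simp
  have hint2 : IsIntegral ℤ (τ ^ 2 / D : ℚ) := by
    have h1 : IsIntegral ℤ (algebraMap ℚ K (τ ^ 2 / D)) := by
      rw [← hy2]
      exact hyint.pow 2
    exact (isIntegral_algebraMap_iff (algebraMap ℚ K).injective).1 h1
  obtain ⟨E, hE⟩ := IsIntegrallyClosed.isIntegral_iff.1 hint2
  rw [eq_intCast] at hE
  have hDQ : (D : ℚ) ≠ 0 := by exact_mod_cast hD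
  have hDE : (D : ℚ) * E = τ ^ 2 := by
    rw [hE]
    field_simp
  have hyE : y ^ 2 = (E : K) := by
    rw [hy2, ← hE, map_intCast]
  refine ⟨E, ?_, ?_, ?_, y, hyadj, hyE⟩
  · rintro rfl
    apply hτ
    have : τ ^ 2 = 0 := by rw [← hDE]; simp
    exact pow_eq_zero_iff two_ne_zero |>.1 this
  · rw [← Rat.isSquare_intCast_iff]
    push_cast
    rw [hDE]
    exact ⟨τ, by ring⟩
  · have h1 : ‖φ y‖ ≤ g * R ^ g := by
      rw [hy, map_sum]
      refine (norm_sum_le _ _).trans ?_
      have h2 : ∀ σ ∈ (Finset.univ : Finset Gal(K/ℚ)), ‖φ ((s σ : K) * σ m)‖ ≤ R ^ g := by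
        intro σ _
        rw [map_mul, norm_mul, map_intCast]
        have h3 : ‖((s σ : ℤ) : ℂ)‖ = 1 := by
          rw [Complex.norm_intCast]
          have := hs1 σ
          exact_mod_cast this
        rw [h3, one_mul]
        exact hUR g _ (hUσ σ g m hm)
      refine (Finset.sum_le_sum h2).trans ?_
      rw [Finset.sum_const, nsmul_eq_mul]
      have h4 : (Finset.univ : Finset Gal(K/ℚ)).card ≤ g := by
        rw [Finset.card_univ, ← Nat.card_eq_fintype_card, IsGalois.card_aut_eq_finrank]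
        exact hg
      have h5 : ((Finset.univ : Finset Gal(K/ℚ)).card : ℝ) ≤ g := by exact_mod_cast h4
      exact mul_le_mul_of_nonneg_right h5 (by positivity)
    have h2 : |(E : ℝ)| = ‖φ y‖ ^ 2 := by
      rw [← norm_pow, ← map_pow, hyE, map_intCast, Complex.norm_intCast]
    rw [h2]
    exact pow_le_pow_left₀ (norm_nonneg _) h1 2

theorem modp {K : Type*} [Field K] [CharZero K] (P : ℤ[X]) (hP : P.Monic) (S : Set K)
    (hS : ∀ z ∈ S, aeval z P = 0) (y : K) (hy : y ∈ Algebra.adjoin ℤ S) (E : ℤ)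
    (hyE : y ^ 2 = (E : K)) (p : ℕ) (hp : p.Prime) (r : ℕ) (x : Fin r → ZMod p)
    (hx : P.map (Int.castRingHom (ZMod p)) = ∏ i, (X - C (x i))) :
    ∃ t : ℤ, (p : ℤ) ∣ E - t ^ 2 := by
  classical
  have : Fact p.Prime := ⟨hp⟩
  have hint : Algebra.IsIntegral ℤ (Algebra.adjoin ℤ S) :=
    Algebra.IsIntegral.adjoin fun z hz => ⟨P, hP, by
      have := hS z hz
      rwa [aeval_def] at this⟩
  have hmax : (Ideal.span {(p : ℤ)}).IsMaximal := by
    apply PrincipalIdealRing.isMaximal_of_irreducible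
    exact (Nat.prime_iff_prime_int.1 hp).irreducible
  obtain ⟨M, hM, hMp⟩ := Ideal.exists_ideal_over_maximal_of_isIntegral
    (S := Algebra.adjoin ℤ S) (Ideal.span {(p : ℤ)}) (by
      intro a ha
      rw [RingHom.mem_ker] at ha
      have h1 : (algebraMap ℤ K a) = 0 := by
        have := congrArg (Algebra.adjoin ℤ S).val ha
        simpa using this
      have h2 : a = 0 := by simpa using h1
      rw [h2]
      exact zero_mem _)
  let _ : Field (Algebra.adjoin ℤ S ⧸ M) := Ideal.Quotient.field M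
  set φ : Algebra.adjoin ℤ S →+* Algebra.adjoin ℤ S ⧸ M := Ideal.Quotient.mk M with hφ
  have hker : ∀ a : ℤ, φ (algebraMap ℤ (Algebra.adjoin ℤ S) a) = 0 ↔ (p : ℤ) ∣ a := by
    intro a
    rw [hφ, Ideal.Quotient.eq_zero_iff_mem, ← Ideal.mem_comap, hMp, Ideal.mem_span_singleton]
  have hp0 : (p : Algebra.adjoin ℤ S ⧸ M) = 0 := by
    have := (hker p).2 dvd_rfl
    simpa using this
  have hchar : CharP (Algebra.adjoin ℤ S ⧸ M) p := by
    obtain ⟨q, hq⟩ := CharP.exists (Algebra.adjoin ℤ S ⧸ M)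
    have h1 : q ∣ p := (CharP.cast_eq_zero_iff _ q p).1 hp0
    rcases (Nat.dvd_prime hp).1 h1 with h2 | h2
    · subst h2
      exact absurd hq (by
        intro h
        exact CharP.char_ne_one (Algebra.adjoin ℤ S ⧸ M) 1 rfl)
    · subst h2
      exact hq
  set ι : ZMod p →+* Algebra.adjoin ℤ S ⧸ M := ZMod.castHom dvd_rfl _ with hι
  -- the roots
  have hroot : ∀ z : Algebra.adjoin ℤ S, (z : K) ∈ S → ∃ a : ℤ, φ z = (a : Algebra.adjoin ℤ S ⧸ M) := by
    intro z hz
    have h1 : aeval z P = 0 := by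
      have h0 := hS z hz
      apply Subtype.ext
      have e := Polynomial.aeval_algHom_apply (Algebra.adjoin ℤ S).val z P
      exact e.symm.trans h0
    have h2 : (P.map (Int.castRingHom (Algebra.adjoin ℤ S ⧸ M))).eval (φ z) = 0 := by
      rw [eval_map]
      have h3 := congrArg φ h1
      rw [map_zero, aeval_def, hom_eval₂] at h3
      rw [← h3]
      congr 1
    have h4 : P.map (Int.castRingHom (Algebra.adjoin ℤ S ⧸ M)) =
        (P.map (Int.castRingHom (ZMod p))).map ι := by
      rw [Polynomial.map_map]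
      congr 1
      exact RingHom.ext_int _ _
    rw [h4, hx, Polynomial.map_prod, eval_prod, Finset.prod_eq_zero_iff] at h2
    obtain ⟨i, _, hi⟩ := h2
    simp only [Polynomial.map_sub, map_X, map_C, eval_sub, eval_X, eval_C] at hi
    refine ⟨((x i).val : ℤ), ?_⟩
    have h5 : ι (x i) = (((x i).val : ℤ) : Algebra.adjoin ℤ S ⧸ M) := by
      conv_lhs => rw [← ZMod.natCast_zmod_val (x i)]
      rw [map_natCast]
      push_cast
      rfl
    rw [← h5]
    exact sub_eq_zero.1 hi
  have hall : ∀ z (hz : z ∈ Algebra.adjoin ℤ S), ∃ a : ℤ,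
      φ ⟨z, hz⟩ = (a : Algebra.adjoin ℤ S ⧸ M) := by
    intro z hz
    induction hz using Algebra.adjoin_induction with
    | mem z hz => exact hroot ⟨z, Algebra.subset_adjoin hz⟩ hz
    | algebraMap c =>
      refine ⟨c, ?_⟩
      have : (⟨algebraMap ℤ K c, Subalgebra.algebraMap_mem _ c⟩ : Algebra.adjoin ℤ S) =
        algebraMap ℤ (Algebra.adjoin ℤ S) c := rfl
      rw [this]
      simp
    | add a b ha hb iha ihb =>
      obtain ⟨a', ha'⟩ := iha
      obtain ⟨b', hb'⟩ := ihb
      refine ⟨a' + b', ?_⟩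
      push_cast
      rw [← ha', ← hb', ← map_add]
      rfl
    | mul a b ha hb iha ihb =>
      obtain ⟨a', ha'⟩ := iha
      obtain ⟨b', hb'⟩ := ihb
      refine ⟨a' * b', ?_⟩
      push_cast
      rw [← ha', ← hb', ← map_mul]
      rfl
  obtain ⟨t, ht⟩ := hall y hy
  refine ⟨t, (hker _).1 ?_⟩
  have h1 : (⟨y, hy⟩ : Algebra.adjoin ℤ S) ^ 2 = algebraMap ℤ (Algebra.adjoin ℤ S) E := by
    apply Subtype.ext
    push_cast
    rw [hyE]
    simp
  rw [map_sub, map_sub, ← h1, map_pow, ht]
  simp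

end Pool.Agent.Run7.h445.QS
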