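import Pool.Agent.Run7.h445.QS.Field

/-!
# Quadratic subfields of the field generated by the complex roots
-/

set_option autoImplicit false

open Polynomial

namespace Pool.Agent.Run7.h445.QS

open IntermediateField

/-- a quadratic subfield of `ℂ` is generated by the square root of a nonsquare integer -/
theorem quad (L : IntermediateField ℚ ℂ) (hL : Module.finrank ℚ L = 2) :
    ∃ D : ℤ, ¬ IsSquare D ∧ ∃ x ∈ L, x ^ 2 = (D : ℂ) ∧ L = ℚ⟮x⟯ := by
  have hfin : FiniteDimensional ℚ L := Module.finite_of_finrank_pos (by rw [hL]; norm_num)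
  have hint : ∀ x ∈ L, IsIntegral ℚ x := fun x hx =>
    (IsIntegral.of_finite ℚ (⟨x, hx⟩ : L)).map L.val
  have hgen : ∀ x ∈ L, x ∉ (⊥ : IntermediateField ℚ ℂ) →
      ℚ⟮x⟯ = L ∧ Module.finrank ℚ ℚ⟮x⟯ = 2 := by
    intro x hx hxb
    have hle : ℚ⟮x⟯ ≤ L := adjoin_simple_le_iff.2 hx
    have h1 : Module.finrank ℚ ℚ⟮x⟯ ≤ 2 := by
      rw [← hL]
      exact Submodule.finrank_mono (s := (Subalgebra.toSubmodule ℚ⟮x⟯.toSubalgebra))
        (t := (Subalgebra.toSubmodule L.toSubalgebra)) hle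
    have h2 : Module.finrank ℚ ℚ⟮x⟯ ≠ 1 := by
      intro h
      rw [IntermediateField.finrank_eq_one_iff, adjoin_simple_eq_bot_iff] at h
      exact hxb h
    have : FiniteDimensional ℚ ℚ⟮x⟯ := adjoin.finiteDimensional (hint x hx)
    have h3 : 0 < Module.finrank ℚ ℚ⟮x⟯ := Module.finrank_pos
    have h4 : Module.finrank ℚ ℚ⟮x⟯ = 2 := by omega
    exact ⟨IntermediateField.eq_of_le_of_finrank_eq hle (by rw [h4, hL]), h4⟩
  have hne : L ≠ ⊥ := by
    intro h
    rw [← IntermediateField.finrank_eq_one_iff, hL] at h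
    norm_num at h
  obtain ⟨θ, hθ, hθb⟩ : ∃ θ ∈ L, θ ∉ (⊥ : IntermediateField ℚ ℂ) := by
    by_contra hcon
    push Not at hcon
    exact hne (le_bot_iff.1 hcon)
  obtain ⟨h1, h2⟩ := hgen θ hθ hθb
  rw [adjoin.finrank (hint θ hθ)] at h2
  have hmon := minpoly.monic (hint θ hθ)
  have hae := minpoly.aeval ℚ θ
  set Q := minpoly ℚ θ with hQ
  have hQ2 : Q.coeff 2 = 1 := by rw [← h2]; exact hmon.coeff_natDegree
  rw [aeval_eq_sum_range, h2] at hae
  simp only [Finset.sum_range_succ, Finset.sum_range_zero, hQ2, pow_zero, zero_add, pow_one,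
    one_smul] at hae
  set b : ℚ := Q.coeff 1 with hb
  set c : ℚ := Q.coeff 0 with hc
  simp only [Algebra.smul_def, mul_one, eq_ratCast] at hae
  set q : ℚ := b ^ 2 - 4 * c with hq
  set w : ℂ := 2 * θ + b with hw
  have hw2 : w ^ 2 = (q : ℂ) := by
    rw [hw, hq]
    push_cast
    linear_combination 4 * hae
  have hden : (q.den : ℂ) ≠ 0 := by exact_mod_cast q.den_nz
  have hqC : (q.den : ℂ) * (q : ℂ) = (q.num : ℂ) := by
    have := Rat.den_mul_eq_num q
    exact_mod_cast this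
  set x : ℂ := q.den * w with hx
  have hx2 : x ^ 2 = ((q.den * q.num : ℤ) : ℂ) := by
    rw [hx, mul_pow, hw2, sq, mul_assoc, hqC]
    push_cast
    ring
  have hwL : w ∈ L := by
    rw [hw]
    refine add_mem (mul_mem ?_ hθ) ?_
    · exact_mod_cast IntermediateField.natCast_mem L 2
    · simp
  have hxL : x ∈ L := mul_mem (IntermediateField.natCast_mem L _) hwL
  have hxb : x ∉ (⊥ : IntermediateField ℚ ℂ) := by
    intro h
    apply hθb
    have e : θ = (x / q.den - b) / 2 := by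
      rw [hx, hw]
      field_simp
      ring
    rw [e]
    refine div_mem (sub_mem (div_mem h (IntermediateField.natCast_mem _ _)) ?_) ?_
    · simp
    · exact_mod_cast IntermediateField.natCast_mem (⊥ : IntermediateField ℚ ℂ) 2
  refine ⟨q.den * q.num, ?_, x, hxL, hx2, ((hgen x hxL hxb).1).symm⟩
  rintro ⟨m, hm⟩
  apply hxb
  rw [hm] at hx2
  have h3 : x ^ 2 = (m : ℂ) ^ 2 := by
    rw [hx2]
    push_cast
    ring
  rcases sq_eq_sq_iff_eq_or_eq_neg.1 h3 with h4 | h4
  · rw [h4]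
    exact IntermediateField.intCast_mem _ m
  · rw [h4]
    exact neg_mem (IntermediateField.intCast_mem _ m)

/-- **Square roots of integers in the field generated by the roots.** -/
theorem field_C (r : ℕ) (hr : 1 ≤ r) (P : ℤ[X]) (hP : P.Monic) (hrP : P.natDegree = r)
    (R : ℝ) (hR1 : 1 ≤ R) (hR : ∀ β ∈ (P.map (Int.castRingHom ℂ)).roots, ‖β‖ ≤ R) (x : ℂ)
    (hx : x ∈ IntermediateField.adjoin ℚ {β | β ∈ (P.map (Int.castRingHom ℂ)).roots}) (D : ℤ)
    (hxD : x ^ 2 = (D : ℂ)) (hD : D ≠ 0) :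
    ∃ E : ℤ, E ≠ 0 ∧ IsSquare (D * E) ∧ |(E : ℝ)| ≤ (((r ^ r : ℕ) : ℝ) * R ^ (r ^ r)) ^ 2 ∧
      ∀ p : ℕ, p.Prime → (∃ x : Fin r → ZMod p, P.map (Int.castRingHom (ZMod p)) =
        ∏ i, (X - C (x i))) → ∃ t : ℤ, (p : ℤ) ∣ E - t ^ 2 := by
  classical
  set PQ : ℚ[X] := P.map (Int.castRingHom ℚ) with hPQ
  have hPQm : PQ.Monic := hP.map _
  have hPQC : PQ.map (algebraMap ℚ ℂ) = P.map (Int.castRingHom ℂ) := by
    rw [hPQ, Polynomial.map_map]
    congr 1
  have hset : PQ.rootSet ℂ = {β | β ∈ (P.map (Int.castRingHom ℂ)).roots} := by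
    ext β
    rw [mem_rootSet, Set.mem_ofPred_eq, mem_roots (hP.map _).ne_zero, IsRoot.def, ← hPQC,
      eval_map_algebraMap]
    exact ⟨fun h => h.2, fun h => ⟨hPQm.ne_zero, h⟩⟩
  rw [← hset] at hx
  have hsp : PQ.IsSplittingField ℚ (IntermediateField.adjoin ℚ (PQ.rootSet ℂ)) :=
    IntermediateField.adjoin_rootSet_isSplittingField (IsAlgClosed.splits _)
  set K := IntermediateField.adjoin ℚ (PQ.rootSet ℂ) with hK
  have hfd : FiniteDimensional ℚ K := Polynomial.IsSplittingField.finiteDimensional K PQ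
  have hnor : Normal ℚ K := Normal.of_isSplittingField PQ
  have hgal : IsGalois ℚ K := ⟨⟩
  have hadj : Algebra.adjoin ℚ (PQ.rootSet K) = ⊤ := Polynomial.IsSplittingField.adjoin_rootSet K PQ
  have hS : ∀ z : K, z ∈ PQ.rootSet K ↔ aeval z P = 0 := by
    intro z
    rw [mem_rootSet, hPQ]
    have e : aeval z (P.map (Int.castRingHom ℚ)) = aeval z P :=
      Polynomial.aeval_map_algebraMap ℚ z P
    rw [e]
    exact ⟨fun h => h.2, fun h => ⟨hPQm.ne_zero, h⟩⟩
  -- the degree
  have hdeg : Module.finrank ℚ K ≤ r ^ r := by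
    rw [← IsGalois.card_aut_eq_finrank]
    have hfinS : Finite (PQ.rootSet K) := by
      have := Polynomial.rootSet_finite PQ K
      exact this.to_subtype
    have hcS : Nat.card (PQ.rootSet K) ≤ r := by
      have h1 := Polynomial.ncard_rootSet_le PQ K
      have h2 : PQ.natDegree = r := by
        rw [hPQ, natDegree_map_eq_of_injective (RingHom.injective_int _), hrP]
      rw [h2] at h1
      exact h1
    have hmaps : ∀ (σ : Gal(K/ℚ)) (z : K), z ∈ PQ.rootSet K → σ z ∈ PQ.rootSet K := by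
      intro σ z hz
      rw [mem_rootSet] at hz ⊢
      refine ⟨hz.1, ?_⟩
      have := Polynomial.aeval_algHom_apply (σ : K →ₐ[ℚ] K) z PQ
      rw [hz.2, map_zero] at this
      exact this
    set Φ : Gal(K/ℚ) → (PQ.rootSet K → PQ.rootSet K) := fun σ z => ⟨σ z.1, hmaps σ z.1 z.2⟩
      with hΦ
    have hinj : Function.Injective Φ := by
      intro σ τ h
      have h1 : ∀ z ∈ PQ.rootSet K, σ z = τ z := by
        intro z hz
        have := congrFun h ⟨z, hz⟩
        exact congrArg Subtype.val this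
      have h2 : (σ : K →ₐ[ℚ] K) = (τ : K →ₐ[ℚ] K) :=
        AlgHom.ext_of_adjoin_eq_top hadj (fun z hz => h1 z hz)
      ext z
      have := DFunLike.congr_fun h2 z
      exact congrArg Subtype.val this
    have h1 := Nat.card_le_card_of_injective Φ hinj
    rw [Nat.card_fun] at h1
    refine h1.trans ?_
    calc Nat.card (PQ.rootSet K) ^ Nat.card (PQ.rootSet K)
        ≤ r ^ Nat.card (PQ.rootSet K) := Nat.pow_le_pow_left hcS _
      _ ≤ r ^ r := Nat.pow_le_pow_right hr hcS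
  obtain ⟨E, hE0, hDE, hEb, y, hy, hyE⟩ := field_abs P hP (PQ.rootSet K) hS hadj
    (algebraMap K ℂ) R hR1 (by
      intro z hz
      apply hR
      have h1 := (hS z).1 hz
      rw [mem_roots (hP.map _).ne_zero, IsRoot.def, eval_map]
      have h2 := congrArg (algebraMap K ℂ) h1
      rw [map_zero, aeval_def, hom_eval₂] at h2
      rw [← h2]
      congr 1) ⟨x, hx⟩ D (by
      apply Subtype.ext
      push_cast
      rw [hxD]) hD (r ^ r) hdeg
  refine ⟨E, hE0, hDE, hEb, ?_⟩
  rintro p hp ⟨x', hx'⟩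
  exact modp P hP (PQ.rootSet K) (fun z hz => (hS z).1 hz) y hy E hyE p hp r x' hx'

end Pool.Agent.Run7.h445.QS
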