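import Pool.Agent.Run7.h445.QS.Kern
import Pool.Agent.Run7.h445.QS.Quad
import Pool.Agent.N17.CK.MAIN
import Pool.Agent.N17.CK.ROOT
import Pool.Agent.N17.CK.BD
import Pool.Agent.N17.CK.POSEND
import Pool.Agent.N17.HC.KOS
import Pool.Agent.N17.HC.LSP

/-!
# Quadratic subfields of the fields of Chern roots
-/

set_option autoImplicit false

open Polynomial Filter

namespace Pool.Agent.Run7.h445.QS

open Pool.Agent.N17.HC Pool.Agent.N17.HC.FIN Pool.Agent.N17.CK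

theorem final (r : ℕ) (hr : 1 ≤ r) (A ε : ℝ) (hε : 0 < ε) :
    ∃ N₀ : ℕ, ∀ N : ℕ, N₀ ≤ N → ∃ F : Finset ℤ, (F.card : ℝ) ≤ (N : ℝ) ^ ε ∧
    (∀ f ∈ F, Squarefree f ∧ (N : ℝ) ^ (4 * Real.exp (1 / 2) - ε) ≤ |(f : ℝ)|) ∧
    ∀ P : ℤ[X], P.Monic → P.natDegree = r →
    (∀ i ≤ r, 0 ≤ chern r P i) →
    (∀ i < r, chern r P (i + 1) ≤ chern r P 1 * chern r P i) →
    (∀ t : ℤ, ∃ z : ℤ, kos N (rootsOf P) (N + t) = z) →
    (∀ t : ℤ, ∃ z : ℤ, ((rootsOf P).map fun b => kos N (rootsOf P) (N + t - b)).sum = z) →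
    ∀ k : ℤ, P.coeff (r - 1) = - (k + N + 1) → (k : ℝ) ≤ (N : ℝ) ^ A →
    ∀ L : IntermediateField ℚ ℂ, L ≤ IntermediateField.adjoin ℚ {β | β ∈ rootsOf P} →
      Module.finrank ℚ L = 2 →
      ∃ f ∈ F, ∃ z : ℂ, z ^ 2 = (f : ℂ) ∧ L = IntermediateField.adjoin ℚ {z} := by
  have hE1 := exp_lb
  obtain ⟨δ, hδ0, hδ1, hδε⟩ : ∃ δ : ℝ, 0 < δ ∧ δ ≤ 1 ∧ δ ≤ ε :=
    ⟨min ε 1, lt_min hε (by norm_num), min_le_right _ _, min_le_left _ _⟩
  set A1 : ℝ := max A 1 with hA1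
  have hA11 : 1 ≤ A1 := le_max_right _ _
  set g : ℕ := r ^ r with hg
  have hrg : r ≤ g := Nat.le_self_pow (by omega) r
  have hg1 : 1 ≤ g := by omega
  set e : ℝ := A1 * (2 * g : ℕ) with he
  have he0 : 0 ≤ e := by positivity
  set c : ℝ := (g : ℝ) ^ 2 * 7 ^ (2 * g) with hc
  have ev := (kern r (e + 1) (δ / 2) (by linarith) (by linarith)).and
    ((transfer (4 * Real.exp (1 / 2)) δ (δ / 2) 1 (by linarith) (by linarith)).and
    ((transfer (e + 1) 1 0 c (by linarith) (by norm_num)).and (eventually_ge_atTop 1)))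
  obtain ⟨y₀, hy₀⟩ := eventually_atTop.1 ev
  refine ⟨y₀ + 4 * r + 1, fun N hN => ?_⟩
  obtain ⟨⟨F, q1, q2, q3⟩, q4, q5, q6⟩ := hy₀ (N + 1 - 2 * r) (by omega)
  set y := N + 1 - 2 * r with hy
  have hNy : N ≤ 2 * y := by omega
  have hyN : y ≤ N := by omega
  have hN1 : (1 : ℝ) ≤ N := by
    have : 1 ≤ N := by omega
    exact_mod_cast this
  have hy1 : (1 : ℝ) ≤ y := by exact_mod_cast q6
  have hyN' : (y : ℝ) ≤ N := by exact_mod_cast hyN
  refine ⟨F, ?_, ?_, ?_⟩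
  · refine q1.trans ?_
    calc (y : ℝ) ^ (δ / 2) ≤ (N : ℝ) ^ (δ / 2) :=
          Real.rpow_le_rpow (by linarith) hyN' (by linarith)
      _ ≤ (N : ℝ) ^ ε := Real.rpow_le_rpow_of_exponent_le hN1 (by linarith)
  · intro f hf
    refine ⟨(q2 f hf).1, ?_⟩
    calc (N : ℝ) ^ (4 * Real.exp (1 / 2) - ε) ≤ (N : ℝ) ^ (4 * Real.exp (1 / 2) - δ) :=
          Real.rpow_le_rpow_of_exponent_le hN1 (by linarith)
      _ ≤ (y : ℝ) ^ (4 * Real.exp (1 / 2) - δ / 2) := by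
          have := q4 N hNy
          rwa [one_mul] at this
      _ ≤ _ := (q2 f hf).2
  intro P hP hrP hpos hsch h1 h2 k hk hkN L hL hL2
  -- the first Chern class
  have hc1 := Pool.Agent.N17.CK.MAIN.chern_one r hr P hP hrP
  rw [hk] at hc1
  have he1 := hpos 1 hr
  set E : ℝ := 2 * ((chern r P 1 : ℤ) : ℝ) with hEdef
  have hE0 : 0 ≤ E := by
    have : (0 : ℝ) ≤ ((chern r P 1 : ℤ) : ℝ) := by exact_mod_cast he1
    linarith
  have hNθ : (N : ℝ) ≤ (N : ℝ) ^ A1 := by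
    calc (N : ℝ) = (N : ℝ) ^ (1 : ℝ) := (Real.rpow_one _).symm
      _ ≤ (N : ℝ) ^ A1 := Real.rpow_le_rpow_of_exponent_le hN1 hA11
  have hkθ : (k : ℝ) ≤ (N : ℝ) ^ A1 :=
    hkN.trans (Real.rpow_le_rpow_of_exponent_le hN1 (le_max_left _ _))
  have hE6 : E ≤ 6 * (N : ℝ) ^ A1 := by
    have h3 : ((chern r P 1 : ℤ) : ℝ) = k + N + 1 - r := by
      rw [hc1]
      push_cast
      ring
    have h4 : (0 : ℝ) ≤ r := Nat.cast_nonneg r
    rw [hEdef, h3]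
    linarith
  set R : ℝ := 7 * (N : ℝ) ^ A1 with hR
  have hR1 : 1 ≤ R := by rw [hR]; linarith
  have hER : E + 1 ≤ R := by rw [hR]; linarith
  have hroot : ∀ β ∈ rootsOf P, ‖β - 1‖ ≤ E := t_ROOT r P hP hrP hpos hsch
  have hrootR : ∀ β ∈ rootsOf P, ‖β‖ ≤ R := by
    intro β hβ
    calc ‖β‖ = ‖(β - 1) + 1‖ := by ring_nf
      _ ≤ ‖β - 1‖ + ‖(1 : ℂ)‖ := norm_add_le _ _
      _ ≤ R := by
          rw [norm_one]
          linarith [hroot β hβ]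
  -- the sizes
  have hbig : ((g : ℝ) * R ^ g) ^ 2 ≤ (y : ℝ) ^ (e + 1) := by
    have h5 := q5 N hNy
    rw [sub_zero, add_sub_cancel_right] at h5
    refine le_trans (le_of_eq ?_) h5
    have hNe : (N : ℝ) ^ e = ((N : ℝ) ^ A1) ^ (2 * g) := by
      rw [he, Real.rpow_mul (by linarith), Real.rpow_natCast]
    rw [hc, hR, hNe]
    ring
  obtain ⟨hd1, -⟩ := t_POS r P hP hrP hpos
  set d : ℤ := (-1) ^ r * P.coeff 0 with hd
  have hd0 : d ≠ 0 := by omega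
  have hdA : |((d : ℤ) : ℝ)| ≤ (y : ℝ) ^ (e + 1) := by
    have h3 := t_BD.2.2 r P E hP hrP hE0 hroot
    have h4 : |((d : ℤ) : ℝ)| = |((P.coeff 0 : ℤ) : ℝ)| := by
      rw [hd]
      push_cast
      rw [abs_mul, abs_pow, abs_neg, abs_one, one_pow, one_mul]
    rw [h4]
    refine h3.trans (le_trans ?_ hbig)
    have hg1' : (1 : ℝ) ≤ g := by exact_mod_cast hg1
    have hRg : 1 ≤ R ^ g := one_le_pow₀ hR1
    calc (E + 1) ^ r ≤ R ^ r := pow_le_pow_left₀ (by linarith) hER r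
      _ ≤ R ^ g := pow_le_pow_right₀ hR1 hrg
      _ ≤ (g : ℝ) * R ^ g := le_mul_of_one_le_left (by linarith) hg1'
      _ ≤ ((g : ℝ) * R ^ g) ^ 2 := by
          have : 1 ≤ (g : ℝ) * R ^ g := one_le_mul_of_one_le_of_one_le hg1' hRg
          nlinarith
  have hlocal : ∀ p : ℕ, p.Prime → r < p → p ≤ y → ¬ (p : ℤ) ∣ d →
      ∃ x : Fin r → ZMod p, P.map (Int.castRingHom (ZMod p)) = ∏ i, (X - C (x i)) :=
    fun p hp hrp hpy hpd => loc t_KOS t_LSP N r P hP hrP d hd.symm h1 h2 p hp hrp (by omega) hpd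
  -- the quadratic field
  obtain ⟨D, hDns, x, hxL, hxD, hLx⟩ := quad L hL2
  have hD0 : D ≠ 0 := by
    rintro rfl
    exact hDns ⟨0, by ring⟩
  obtain ⟨E', hE'0, hDE, hE'b, hE'p⟩ := field_C r hr P hP hrP R hR1 hrootR x (hL hxL) D hxD hD0
  obtain ⟨f, s, hf, hs0, hfs⟩ := Pool.Agent.R852.LK.sqf D hD0
  have hAdm : Adm r y (e + 1) f := by
    refine ⟨hf, ?_, E', d, hE'0, ?_, hE'b.trans hbig, hd0, hdA, ?_⟩
    · rintro ⟨m, hm⟩
      apply hDns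
      exact ⟨m * s, by rw [hfs, hm]; ring⟩
    · apply sq_cancel _ s hs0.ne'
      rw [hfs] at hDE
      convert hDE using 1
      ring
    · intro p hp hrp hpy hpd
      exact hE'p p hp (hlocal p hp hrp hpy hpd)
  have hsC : (s : ℂ) ≠ 0 := by exact_mod_cast hs0.ne'
  refine ⟨f, q3 f hAdm, x / s, ?_, ?_⟩
  · rw [div_pow, hxD, hfs]
    push_cast
    field_simp
  · rw [hLx]
    apply le_antisymm
    · rw [IntermediateField.adjoin_simple_le_iff]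
      have h3 : (s : ℂ) * (x / s) = x := by field_simp
      have h4 := mul_mem (IntermediateField.intCast_mem (IntermediateField.adjoin ℚ {x / (s : ℂ)}) s)
        (IntermediateField.mem_adjoin_simple_self ℚ (x / (s : ℂ)))
      rwa [h3] at h4
    · rw [IntermediateField.adjoin_simple_le_iff]
      exact div_mem (IntermediateField.mem_adjoin_simple_self ℚ x)
        (IntermediateField.intCast_mem _ s)

end Pool.Agent.Run7.h445.QS
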